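import Mathlib

/-!
# Both signs of the Liouville function of `a³ + 2b³` in the region `1 ≤ b ≤ (5a)^(1/3)`

Q1 of MP_69e71a_nt asks for infinitely many `n` with `λ(n³ + 2) = -1`; these are the values of the
binary cubic form `a³ + 2b³` at the coprime pairs `(n, 1)`.  Here the line `b = 1` is widened to
the thin region `b³ ≤ 5a`: each of the two signs is taken infinitely often by `λ(a³ + 2b³)` at
coprime pairs of positive integers in this region.

With `θ³ = 2` and `ψ = θ² + 2θ - 2` one has `ψ² = 12 - 6θ` and `ψ³ = 36θ - 36`, so that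
`(t + xψ)(t + yψ)(t + zψ)` lies in `ℤ + ℤθ` whenever `x + y + z = 0`, and its coefficient of `θ`
is only linear in `t`.  The triples `(1, -1, 0)`, `(1, 1, -2)` and `(-1, -1, 2)` give the
identities below.
-/

set_option autoImplicit false

namespace Pool.Agent.Results.MP_69e71a_nt.ThinRegion

/-- The Liouville function `λ(n) = (-1) ^ Ω(n)`. -/
def liouville (n : ℕ) : ℤ := (-1) ^ ArithmeticFunction.cardFactors n

/-- The binary cubic form `a³ + 2b³`. -/
def form (a b : ℕ) : ℕ := a ^ 3 + 2 * b ^ 3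

theorem liouville_mul {m n : ℕ} (hm : m ≠ 0) (hn : n ≠ 0) :
    liouville (m * n) = liouville m * liouville n := by
  unfold liouville
  rw [ArithmeticFunction.cardFactors_mul hm hn, pow_add]

theorem liouville_or (n : ℕ) : liouville n = 1 ∨ liouville n = -1 := by
  unfold liouville
  exact neg_one_pow_eq_or ℤ _

theorem liouville_sq_self (n : ℕ) : liouville n * liouville n = 1 := by
  rcases liouville_or n with h | h <;> rw [h] <;> norm_num

theorem liouville_sq {n : ℕ} (hn : n ≠ 0) : liouville (n ^ 2) = 1 := by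
  rw [pow_two, liouville_mul hn hn, liouville_sq_self]

theorem liouville_prime {p : ℕ} (hp : p.Prime) : liouville p = -1 := by
  unfold liouville
  rw [ArithmeticFunction.cardFactors_apply_prime hp, pow_one]

/-- The relation of the three pairs of an odd number `s = 2j + 3`. -/
theorem odd_relation (j : ℕ) :
    liouville (form (12 * j ^ 2 + 36 * j + 23) 2) *
      liouville (form (48 * j ^ 3 + 216 * j ^ 2 + 312 * j + 142) (6 * j + 11)) *
      liouville (form (48 * j ^ 3 + 216 * j ^ 2 + 312 * j + 146) (6 * j + 7)) = -1 := by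
  obtain ⟨g, hg⟩ : ∃ g, g = 24 * j ^ 3 + 84 * j ^ 2 + 90 * j + 31 := ⟨_, rfl⟩
  obtain ⟨h, hh⟩ : ∃ h, h = 24 * j ^ 3 + 132 * j ^ 2 + 234 * j + 131 := ⟨_, rfl⟩
  obtain ⟨u, hu⟩ : ∃ u, u = 48 * j ^ 3 + 240 * j ^ 2 + 396 * j + 215 := ⟨_, rfl⟩
  obtain ⟨v, hv⟩ : ∃ v, v = 48 * j ^ 3 + 192 * j ^ 2 + 252 * j + 109 := ⟨_, rfl⟩
  have e1 : form (12 * j ^ 2 + 36 * j + 23) 2 = 3 * (g * h) := by
    subst hg hh; unfold form; ring
  have e2 : form (48 * j ^ 3 + 216 * j ^ 2 + 312 * j + 142) (6 * j + 11) = 2 * (u ^ 2 * g) := by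
    subst hg hu; unfold form; ring
  have e3 : form (48 * j ^ 3 + 216 * j ^ 2 + 312 * j + 146) (6 * j + 7) = 2 * (v ^ 2 * h) := by
    subst hh hv; unfold form; ring
  have g0 : g ≠ 0 := by subst hg; positivity
  have h0 : h ≠ 0 := by subst hh; positivity
  have u0 : u ≠ 0 := by subst hu; positivity
  have v0 : v ≠ 0 := by subst hv; positivity
  rw [e1, e2, e3, liouville_mul (by norm_num) (mul_ne_zero g0 h0), liouville_mul g0 h0,
    liouville_mul (by norm_num) (mul_ne_zero (pow_ne_zero 2 u0) g0),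
    liouville_mul (pow_ne_zero 2 u0) g0, liouville_sq u0,
    liouville_mul (by norm_num) (mul_ne_zero (pow_ne_zero 2 v0) h0),
    liouville_mul (pow_ne_zero 2 v0) h0, liouville_sq v0,
    liouville_prime Nat.prime_two, liouville_prime Nat.prime_three]
  have hg2 := liouville_sq_self g
  have hh2 := liouville_sq_self h
  calc -1 * (liouville g * liouville h) * (-1 * (1 * liouville g)) * (-1 * (1 * liouville h))
      = -((liouville g * liouville g) * (liouville h * liouville h)) := by ring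
    _ = -1 := by rw [hg2, hh2]; norm_num

/-- The relation of the three pairs of `k = j + 1`. -/
theorem even_relation (j : ℕ) :
    liouville (form (6 * j ^ 2 + 12 * j + 4) 1) =
      liouville (form (24 * j ^ 3 + 72 * j ^ 2 + 66 * j + 17) (3 * j + 4)) *
      liouville (form (24 * j ^ 3 + 72 * j ^ 2 + 66 * j + 19) (3 * j + 2)) := by
  obtain ⟨g, hg⟩ : ∃ g, g = 6 * j ^ 3 + 12 * j ^ 2 + 6 * j + 1 := ⟨_, rfl⟩
  obtain ⟨h, hh⟩ : ∃ h, h = 6 * j ^ 3 + 24 * j ^ 2 + 30 * j + 11 := ⟨_, rfl⟩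
  obtain ⟨u, hu⟩ : ∃ u, u = 48 * j ^ 3 + 168 * j ^ 2 + 192 * j + 71 := ⟨_, rfl⟩
  obtain ⟨v, hv⟩ : ∃ v, v = 48 * j ^ 3 + 120 * j ^ 2 + 96 * j + 25 := ⟨_, rfl⟩
  have e1 : form (6 * j ^ 2 + 12 * j + 4) 1 = 2 * (3 * (g * h)) := by
    subst hg hh; unfold form; ring
  have e2 : form (24 * j ^ 3 + 72 * j ^ 2 + 66 * j + 17) (3 * j + 4) = u ^ 2 * g := by
    subst hg hu; unfold form; ring
  have e3 : form (24 * j ^ 3 + 72 * j ^ 2 + 66 * j + 19) (3 * j + 2) = v ^ 2 * h := by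
    subst hh hv; unfold form; ring
  have g0 : g ≠ 0 := by subst hg; positivity
  have h0 : h ≠ 0 := by subst hh; positivity
  have u0 : u ≠ 0 := by subst hu; positivity
  have v0 : v ≠ 0 := by subst hv; positivity
  rw [e1, e2, e3, liouville_mul (by norm_num) (mul_ne_zero (by norm_num) (mul_ne_zero g0 h0)),
    liouville_mul (by norm_num) (mul_ne_zero g0 h0), liouville_mul g0 h0,
    liouville_mul (pow_ne_zero 2 u0) g0, liouville_sq u0,
    liouville_mul (pow_ne_zero 2 v0) h0, liouville_sq v0,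
    liouville_prime Nat.prime_two, liouville_prime Nat.prime_three]
  ring

theorem coprime_of {a b : ℕ} (x y : ℤ) (h : x * (a : ℤ) + y * (b : ℤ) = 1) : Nat.Coprime a b :=
  Nat.isCoprime_iff_coprime.1 ⟨x, y, h⟩

theorem cop1 (j : ℕ) : Nat.Coprime (12 * j ^ 2 + 36 * j + 23) 2 :=
  coprime_of 1 (-(6 * j ^ 2 + 18 * j + 11)) (by push_cast; ring)

theorem cop2 (j : ℕ) :
    Nat.Coprime (48 * j ^ 3 + 216 * j ^ 2 + 312 * j + 142) (6 * j + 11) :=
  coprime_of (-9 * (3 * j + 5))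
    (1 + (3 * j + 5) * (18 * (2 * j + 3) ^ 2 - 12 * (2 * j + 3) - 10)) (by push_cast; ring)

theorem cop3 (j : ℕ) :
    Nat.Coprime (48 * j ^ 3 + 216 * j ^ 2 + 312 * j + 146) (6 * j + 7) :=
  coprime_of (9 * (3 * j + 3))
    (1 - (3 * j + 3) * (18 * (2 * j + 3) ^ 2 + 12 * (2 * j + 3) - 10)) (by push_cast; ring)

theorem cop4 (j : ℕ) : Nat.Coprime (24 * j ^ 3 + 72 * j ^ 2 + 66 * j + 17) (3 * j + 4) :=
  coprime_of 9 (-(72 * (j + 1) ^ 2 - 24 * (j + 1) - 10)) (by push_cast; ring)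

theorem cop5 (j : ℕ) : Nat.Coprime (24 * j ^ 3 + 72 * j ^ 2 + 66 * j + 19) (3 * j + 2) :=
  coprime_of (-9) (72 * (j + 1) ^ 2 + 24 * (j + 1) - 10) (by push_cast; ring)

theorem exists_neg (N : ℕ) : ∃ a b : ℕ, N ≤ a ∧ 1 ≤ b ∧ b ^ 3 ≤ 5 * a ∧ Nat.Coprime a b ∧
    liouville (form a b) = -1 := by
  have rel := odd_relation (N + 9)
  have c1 := cop1 (N + 9)
  have c2 := cop2 (N + 9)
  have c3 := cop3 (N + 9)
  rcases liouville_or (form (12 * (N + 9) ^ 2 + 36 * (N + 9) + 23) 2) with h1 | h1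
  · rcases liouville_or (form (48 * (N + 9) ^ 3 + 216 * (N + 9) ^ 2 + 312 * (N + 9) + 142)
      (6 * (N + 9) + 11)) with h2 | h2
    · rw [h1, h2, one_mul, one_mul] at rel
      exact ⟨_, _, by nlinarith [Nat.zero_le (N ^ 3)], by omega,
        by nlinarith [Nat.zero_le (N ^ 3), Nat.zero_le (N ^ 2)], c3, rel⟩
    · exact ⟨_, _, by nlinarith [Nat.zero_le (N ^ 3)], by omega,
        by nlinarith [Nat.zero_le (N ^ 3), Nat.zero_le (N ^ 2)], c2, h2⟩
  · exact ⟨_, _, by nlinarith, by omega, by nlinarith, c1, h1⟩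

theorem exists_pos (N : ℕ) : ∃ a b : ℕ, N ≤ a ∧ 1 ≤ b ∧ b ^ 3 ≤ 5 * a ∧ Nat.Coprime a b ∧
    liouville (form a b) = 1 := by
  have rel := even_relation N
  have c4 := cop4 N
  rcases liouville_or (form (6 * N ^ 2 + 12 * N + 4) 1) with h1 | h1
  · exact ⟨_, _, by nlinarith, le_refl _, by nlinarith, Nat.coprime_one_right _, h1⟩
  · have c5 := cop5 N
    rcases liouville_or (form (24 * N ^ 3 + 72 * N ^ 2 + 66 * N + 17) (3 * N + 4)) with h2 | h2
    · exact ⟨_, _, by nlinarith [Nat.zero_le (N ^ 3)], by omega,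
        by nlinarith [Nat.zero_le (N ^ 3), Nat.zero_le (N ^ 2)], c4, h2⟩
    · rw [h1, h2] at rel
      exact ⟨_, _, by nlinarith [Nat.zero_le (N ^ 3)], by omega,
        by nlinarith [Nat.zero_le (N ^ 3), Nat.zero_le (N ^ 2)], c5, by linarith⟩

theorem result :
    (∀ e : ℤ, e = 1 ∨ e = -1 → ∀ N : ℕ, ∃ a b : ℕ, N ≤ a ∧ 1 ≤ b ∧ b ^ 3 ≤ 5 * a ∧
      Nat.Coprime a b ∧ liouville (form a b) = e) ∧
    (∀ s : ℕ, Odd s → 3 ≤ s →
      Nat.Coprime (3 * s ^ 2 - 4) 2 ∧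
      Nat.Coprime (6 * s ^ 3 - 6 * s - 2) (3 * s + 2) ∧
      Nat.Coprime (6 * s ^ 3 - 6 * s + 2) (3 * s - 2) ∧
      liouville (form (3 * s ^ 2 - 4) 2) *
        liouville (form (6 * s ^ 3 - 6 * s - 2) (3 * s + 2)) *
        liouville (form (6 * s ^ 3 - 6 * s + 2) (3 * s - 2)) = -1) ∧
    (∀ k : ℕ, 1 ≤ k →
      Nat.Coprime (24 * k ^ 3 - 6 * k - 1) (3 * k + 1) ∧
      Nat.Coprime (24 * k ^ 3 - 6 * k + 1) (3 * k - 1) ∧
      liouville (form (6 * k ^ 2 - 2) 1) =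
        liouville (form (24 * k ^ 3 - 6 * k - 1) (3 * k + 1)) *
        liouville (form (24 * k ^ 3 - 6 * k + 1) (3 * k - 1))) := by
  refine ⟨?_, ?_, ?_⟩
  · rintro e (rfl | rfl) N
    · exact exists_pos N
    · exact exists_neg N
  · rintro s ⟨i, rfl⟩ hs
    obtain ⟨j, rfl⟩ : ∃ j, i = j + 1 := ⟨i - 1, by omega⟩
    have e1 : 3 * (2 * (j + 1) + 1) ^ 2 - 4 = 12 * j ^ 2 + 36 * j + 23 := by
      have : 3 * (2 * (j + 1) + 1) ^ 2 = 12 * j ^ 2 + 36 * j + 23 + 4 := by ring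
      omega
    have e2 : 6 * (2 * (j + 1) + 1) ^ 3 - 6 * (2 * (j + 1) + 1) =
        48 * j ^ 3 + 216 * j ^ 2 + 312 * j + 144 := by
      have : 6 * (2 * (j + 1) + 1) ^ 3 =
          48 * j ^ 3 + 216 * j ^ 2 + 312 * j + 144 + 6 * (2 * (j + 1) + 1) := by ring
      omega
    have e3 : 3 * (2 * (j + 1) + 1) + 2 = 6 * j + 11 := by ring
    have e4 : 3 * (2 * (j + 1) + 1) - 2 = 6 * j + 7 := by omega
    have e5 : 48 * j ^ 3 + 216 * j ^ 2 + 312 * j + 144 - 2 =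
        48 * j ^ 3 + 216 * j ^ 2 + 312 * j + 142 := by omega
    rw [e1, e2, e3, e4, e5]
    exact ⟨cop1 j, cop2 j, cop3 j, odd_relation j⟩
  · intro k hk
    obtain ⟨j, rfl⟩ : ∃ j, k = j + 1 := ⟨k - 1, by omega⟩
    have e1 : 6 * (j + 1) ^ 2 - 2 = 6 * j ^ 2 + 12 * j + 4 := by
      have : 6 * (j + 1) ^ 2 = 6 * j ^ 2 + 12 * j + 4 + 2 := by ring
      omega
    have e2 : 24 * (j + 1) ^ 3 - 6 * (j + 1) = 24 * j ^ 3 + 72 * j ^ 2 + 66 * j + 18 := by
      have : 24 * (j + 1) ^ 3 = 24 * j ^ 3 + 72 * j ^ 2 + 66 * j + 18 + 6 * (j + 1) := by ring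
      omega
    have e3 : 3 * (j + 1) + 1 = 3 * j + 4 := by ring
    have e4 : 3 * (j + 1) - 1 = 3 * j + 2 := by omega
    have e5 : 24 * j ^ 3 + 72 * j ^ 2 + 66 * j + 18 - 1 =
        24 * j ^ 3 + 72 * j ^ 2 + 66 * j + 17 := by omega
    rw [e1, e2, e3, e4, e5]
    exact ⟨cop4 j, cop5 j, even_relation j⟩

end Pool.Agent.Results.MP_69e71a_nt.ThinRegion
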